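import Pool.Agent.ISO.StmtsR
import Pool.Agent.Helper3_OMP.Minor

/-!
# Squad ISO, block R, row SNP: points with simple normal crossings
-/

set_option autoImplicit false

namespace Pool.Agent.ISO.R.H99

open Finset Pool.Agent.Helper6_Mono Pool.Agent.Helper32_OMP Pool.Agent.ISO

section basic

variable {σ : Type}

theorem cc_tra (p : σ → ℂ) (f : MvPolynomial σ ℂ) :
    MvPolynomial.constantCoeff (tra p f) = MvPolynomial.eval p f := by
  rw [tra]
  induction f using MvPolynomial.induction_on with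
  | C a => simp
  | add P Q hP hQ => rw [map_add, map_add, map_add, hP, hQ]
  | mul_X P i hP =>
    rw [map_mul, map_mul, map_mul, hP, MvPolynomial.aeval_X]
    simp

theorem pderiv_tra (p : σ → ℂ) (f : MvPolynomial σ ℂ) (l : σ) :
    MvPolynomial.pderiv l (tra p f) = tra p (MvPolynomial.pderiv l f) := by
  classical
  rw [tra, tra]
  induction f using MvPolynomial.induction_on with
  | C a => simp
  | add P Q hP hQ => rw [map_add, map_add, map_add, map_add, hP, hQ]
  | mul_X P i hP =>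
    rw [map_mul, MvPolynomial.pderiv_mul, hP, MvPolynomial.pderiv_mul, map_add, map_mul, map_mul,
      MvPolynomial.aeval_X, MvPolynomial.pderiv_X, map_add, MvPolynomial.pderiv_X,
      MvPolynomial.pderiv_C, add_zero]
    congr 2
    by_cases h : l = i
    · subst h; simp
    · rw [Pi.single_eq_of_ne (Ne.symm h), map_zero]

theorem coeff_single_tra (p : σ → ℂ) (f : MvPolynomial σ ℂ) (l : σ) :
    MvPolynomial.coeff (Finsupp.single l 1) (tra p f) =
      MvPolynomial.eval p (MvPolynomial.pderiv l f) := by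
  rw [← cc_tra, ← pderiv_tra, MvPolynomial.constantCoeff_eq, MvPolynomial.coeff_pderiv]
  simp

theorem lbs_mul {z : σ → ℂ} {F : MvPolynomial σ ℂ} {b : Polynomial ℂ} (h : LBS z F b)
    (q : Polynomial ℂ) : LBS z F (b * q) := by
  obtain ⟨h0, h1, P, hP⟩ := h
  refine ⟨h0, h1, P.map (fun aw => (q.map MvPolynomial.C * aw.1, aw.2)), ?_⟩
  intro n
  have e1 : (q.map (MvPolynomial.C : ℂ →+* MvPolynomial σ ℂ)).eval (n : MvPolynomial σ ℂ) =
      MvPolynomial.C (q.eval (n : ℂ)) := by
    rw [Polynomial.eval_map, Polynomial.eval₂_at_natCast]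
  rw [Polynomial.eval_mul, mul_comm (b.eval (n : ℂ)), map_mul, mul_assoc, mul_assoc,
    ← mul_assoc (MvPolynomial.C (b.eval (n : ℂ))), hP n, ← List.sum_map_mul_left, List.map_map]
  congr 1
  apply List.map_congr_left
  intro aw _
  simp only [Function.comp_apply, Polynomial.eval_mul, e1]
  ring

end basic

theorem coords (σ : Type) [Fintype σ] (S : Type) [Fintype S] [DecidableEq S] (τ : S ↪ σ)
    (G : S → MvPolynomial σ ℂ) (hG : ∀ i, MvPolynomial.constantCoeff (G i) = 0)
    (hτ : (Matrix.of fun i i' : S =>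
      MvPolynomial.coeff (Finsupp.single (τ i') 1) (G i)).det ≠ 0) :
    ∃ ψ : σ → MvPolynomial σ ℂ, (∀ i, ψ (τ i) = G i) ∧
      (∀ l, MvPolynomial.constantCoeff (ψ l) = 0) ∧
      LinearIndependent ℂ (fun l : σ => fun j : σ =>
        MvPolynomial.coeff (Finsupp.single j 1) (ψ l)) := by
  classical
  obtain ⟨ψ, ψ1, ψ2⟩ : ∃ ψ : σ → MvPolynomial σ ℂ, (∀ i, ψ (τ i) = G i) ∧
      ∀ l, (¬ ∃ i : S, τ i = l) → ψ l = MvPolynomial.X l := by
    refine ⟨fun l => if h : ∃ i : S, τ i = l then G h.choose else MvPolynomial.X l, ?_, ?_⟩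
    · intro i
      have h : ∃ i' : S, τ i' = τ i := ⟨i, rfl⟩
      have h2 : h.choose = i := τ.injective h.choose_spec
      show (if h : ∃ i' : S, τ i' = τ i then G h.choose else MvPolynomial.X (τ i)) = G i
      rw [dif_pos h, h2]
    · intro l h
      show (if h : ∃ i' : S, τ i' = l then G h.choose else MvPolynomial.X l) = _
      rw [dif_neg h]
  refine ⟨ψ, ψ1, ?_, ?_⟩
  · intro l
    by_cases h : ∃ i : S, τ i = l
    · obtain ⟨i, rfl⟩ := h
      rw [ψ1, hG]
    · rw [ψ2 l h]
      simp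
  have r2 : ∀ (l j : σ), (¬ ∃ i : S, τ i = l) →
      MvPolynomial.coeff (Finsupp.single j 1) (ψ l) = if l = j then 1 else 0 := by
    intro l j h
    rw [ψ2 l h, MvPolynomial.coeff_X']
    by_cases hlj : l = j
    · rw [hlj, if_pos rfl, if_pos rfl]
    · rw [if_neg hlj, if_neg]
      intro h'
      exact hlj (Finsupp.single_left_injective one_ne_zero h')
  rw [Fintype.linearIndependent_iff]
  intro lam hlam
  have col : ∀ j : σ, ∑ l, lam l * MvPolynomial.coeff (Finsupp.single j 1) (ψ l) = 0 := by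
    intro j
    have := congrFun hlam j
    rw [Finset.sum_apply] at this
    exact this
  have z1 : ∀ i : S, lam (τ i) = 0 := by
    have hv : Matrix.vecMul (fun i : S => lam (τ i)) (Matrix.of fun i i' : S =>
        MvPolynomial.coeff (Finsupp.single (τ i') 1) (G i)) = 0 := by
      funext i'
      rw [Pi.zero_apply, ← col (τ i')]
      show ∑ i : S, lam (τ i) * MvPolynomial.coeff (Finsupp.single (τ i') 1) (G i) = _
      rw [← Finset.sum_subset (Finset.subset_univ (Finset.univ.map τ)), Finset.sum_map]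
      · exact Finset.sum_congr rfl (fun i _ => by rw [ψ1])
      · intro l _ hl
        have hl2 : ¬ ∃ i : S, τ i = l := by
          rintro ⟨i, rfl⟩
          exact hl (Finset.mem_map_of_mem τ (Finset.mem_univ i))
        rw [r2 l _ hl2, if_neg, mul_zero]
        rintro rfl
        exact hl2 ⟨i', rfl⟩
    have := Matrix.eq_zero_of_vecMul_eq_zero hτ hv
    intro i
    exact congrFun this i
  intro l
  by_cases h : ∃ i : S, τ i = l
  · obtain ⟨i, rfl⟩ := h
    exact z1 i
  · have h2 := col l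
    rw [Finset.sum_eq_single l] at h2
    · rw [r2 l l h, if_pos rfl, mul_one] at h2
      exact h2
    · intro l' _ hne
      by_cases h' : ∃ i : S, τ i = l'
      · obtain ⟨i, rfl⟩ := h'
        rw [z1 i, zero_mul]
      · rw [r2 l' l h', if_neg hne, mul_zero]
    · intro h'
      exact (h' (Finset.mem_univ l)).elim

theorem expos (σ : Type) [Fintype σ] (S : Type) [Fintype S] (τ : S ↪ σ) (b : S → ℕ) :
    ∃ α : σ →₀ ℕ, ∀ (M : Type) [CommMonoid M] (f : σ → ℕ → M), (∀ l, f l 0 = 1) →
      ∏ l, f l (α l) = ∏ i : S, f (τ i) (b i) := by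
  classical
  refine ⟨∑ i : S, Finsupp.single (τ i) (b i), ?_⟩
  intro M _ f hf
  have α1 : ∀ i : S, (∑ i : S, Finsupp.single (τ i) (b i)) (τ i) = b i := by
    intro i
    rw [Finsupp.finset_sum_apply, Finset.sum_eq_single i]
    · simp
    · intro i' _ hne
      rw [Finsupp.single_apply, if_neg]
      intro h
      exact hne (τ.injective h)
    · intro h
      exact (h (Finset.mem_univ i)).elim
  have α2 : ∀ l, (¬ ∃ i : S, τ i = l) → (∑ i : S, Finsupp.single (τ i) (b i)) l = 0 := by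
    intro l h
    rw [Finsupp.finset_sum_apply]
    apply Finset.sum_eq_zero
    intro i _
    rw [Finsupp.single_apply, if_neg]
    intro h'
    exact h ⟨i, h'⟩
  rw [← Finset.prod_subset (Finset.subset_univ (Finset.univ.map τ)), Finset.prod_map]
  · exact Finset.prod_congr rfl (fun i _ => by rw [α1])
  · intro l _ hl
    have hl2 : ¬ ∃ i : S, τ i = l := by
      rintro ⟨i, rfl⟩
      exact hl (Finset.mem_map_of_mem τ (Finset.mem_univ i))
    rw [α2 l hl2, hf]

theorem core (trp : TrpStmt) (mon : MonStmt) (σ ι : Type) [Fintype σ] [Fintype ι]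
    (G : ι → MvPolynomial σ ℂ) (a : ι → ℕ) (c : ℂ) (hc : c ≠ 0) (p : ι → Prop)
    [DecidablePred p] [DecidableEq {i // p i}] (hp1 : ∀ i, p i → MvPolynomial.constantCoeff (G i) = 0)
    (hp2 : ∀ i, ¬ p i → MvPolynomial.constantCoeff (G i) ≠ 0) (τ : {i // p i} ↪ σ)
    (hτ : (Matrix.of fun i i' : {i // p i} =>
      MvPolynomial.coeff (Finsupp.single (τ i') 1) (G i.1)).det ≠ 0) :
    LBS 0 (MvPolynomial.C c * ∏ i, G i ^ a i) (bmf a) := by
  obtain ⟨ψ, ψ1, ψ0, hli⟩ := coords σ {i // p i} τ (fun i => G i.1) (fun i => hp1 i.1 i.2) hτ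
  obtain ⟨α, hα⟩ := expos σ {i // p i} τ (fun i => a i.1)
  obtain ⟨κ0, hκ0⟩ : ∃ κ0 : ℂ, κ0 =
    ∏ i : {i // ¬ p i}, (MvPolynomial.constantCoeff (G i.1)) ^ a i.1 := ⟨_, rfl⟩
  have hκ1 : κ0 ≠ 0 := by
    rw [hκ0]
    exact Finset.prod_ne_zero_iff.2 (fun i _ => pow_ne_zero _ (hp2 i.1 i.2))
  have hκ : c * κ0 ≠ 0 := mul_ne_zero hc hκ1
  have hbm : bmf (fun l => α l) = ∏ i : {i // p i}, ∏ j ∈ range (a i.1),
      (Polynomial.X + Polynomial.C (((j : ℂ) + 1) / (a i.1 : ℂ))) :=
    hα (Polynomial ℂ) (fun _ n => ∏ j ∈ range n,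
      (Polynomial.X + Polynomial.C (((j : ℂ) + 1) / (n : ℂ)))) (fun _ => by simp)
  have hdiv : bmf a = bmf (fun l => α l) *
      ∏ i : {i // ¬ p i}, ∏ j ∈ range (a i.1),
        (Polynomial.X + Polynomial.C (((j : ℂ) + 1) / (a i.1 : ℂ))) := by
    rw [hbm, bmf]
    exact (Fintype.prod_subtype_mul_prod_subtype p
      (fun i => ∏ j ∈ range (a i),
        (Polynomial.X + Polynomial.C (((j : ℂ) + 1) / (a i : ℂ))))).symm
  rw [hdiv]
  apply lbs_mul
  refine trp σ (MvPolynomial.C (c * κ0) * MvPolynomial.monomial α 1) _ 0 _ ?_ (mon σ _ α hκ)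
  intro E
  refine ⟨ψ, MvPolynomial.C κ0⁻¹ * ∏ i : {i // ¬ p i}, G i.1 ^ a i.1, ψ0, hli, ?_, ?_⟩
  · rw [map_mul, map_prod, MvPolynomial.constantCoeff_C]
    have : ∏ i : {i // ¬ p i}, MvPolynomial.constantCoeff (G i.1 ^ a i.1) = κ0 := by
      rw [hκ0]
      exact Finset.prod_congr rfl (fun i _ => by rw [map_pow])
    rw [this]
    exact inv_mul_cancel₀ hκ1
  · intro β _
    have hmon : MvPolynomial.aeval ψ (MvPolynomial.C (c * κ0) * MvPolynomial.monomial α 1) =
        MvPolynomial.C (c * κ0) * ∏ i : {i // p i}, G i.1 ^ a i.1 := by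
      rw [map_mul, MvPolynomial.algHom_C, MvPolynomial.algebraMap_eq, MvPolynomial.aeval_monomial,
        map_one, one_mul, Finsupp.prod_fintype _ _ (fun l => pow_zero _)]
      congr 1
      rw [hα (MvPolynomial σ ℂ) (fun l n => ψ l ^ n) (fun _ => pow_zero _)]
      exact Finset.prod_congr rfl (fun i _ => by rw [ψ1])
    have hprod := Fintype.prod_subtype_mul_prod_subtype p (fun i => G i ^ a i)
    rw [hmon, ← hprod]
    have hc2 : (MvPolynomial.C κ0⁻¹ : MvPolynomial σ ℂ) * MvPolynomial.C (c * κ0) =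
        MvPolynomial.C c := by
      rw [← map_mul]
      congr 1
      field_simp
    rw [← hc2]
    have hz0 : ∀ p q A B : MvPolynomial σ ℂ, p * A * (q * B) - p * q * (B * A) = 0 := by
      intro p q A B
      ring
    rw [hz0, MvPolynomial.coeff_zero]

theorem snp (trp : TrpStmt) (traS : TraStmt) (mon : MonStmt) : SnpStmt := by
  classical
  intro σ ι _ _ g a c ha hc z hz
  apply traS σ z _ _
  have hF : tra z (MvPolynomial.C c * ∏ i, g i ^ a i) =
      MvPolynomial.C c * ∏ i, tra z (g i) ^ a i := by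
    rw [tra, map_mul, map_prod, MvPolynomial.algHom_C, MvPolynomial.algebraMap_eq]
    congr 1
    exact Finset.prod_congr rfl (fun i _ => by rw [map_pow, tra])
  rw [hF]
  obtain ⟨τ, hτ⟩ := Pool.Agent.Helper32_OMP.H3.minor ℂ σ {i // MvPolynomial.eval z (g i) = 0}
    (fun i l => MvPolynomial.eval z (MvPolynomial.pderiv l (g i))) hz
  refine @core trp mon σ ι _ _ (fun i => tra z (g i)) a c hc
    (fun i => MvPolynomial.eval z (g i) = 0) _ (fun x y => Classical.propDecidable (x = y))
    (fun i hi => ?_) (fun i hi => ?_) τ ?_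
  · rw [cc_tra]
    exact hi
  · rw [cc_tra]
    exact hi
  · have e : (Matrix.of fun i i' : {i // MvPolynomial.eval z (g i) = 0} =>
        MvPolynomial.coeff (Finsupp.single (τ i') 1) (tra z (g i.1))) =
        Matrix.of fun i i' : {i // MvPolynomial.eval z (g i) = 0} =>
          MvPolynomial.eval z (MvPolynomial.pderiv (τ i') (g i.1)) := by
      funext i i'
      exact coeff_single_tra z (g i.1) (τ i')
    rw [e]
    exact hτ

end Pool.Agent.ISO.R.H99
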